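import Pool.Agent.H57.UlA

set_option autoImplicit false

namespace Pool.Agent.Results.MP_23a294_lc.Small

open Set Cardinal MeasureTheory

/-- the classes `C_k(A)` -/
def Cl {E : Type} (A : ℕ → Set E) : ℕ → Set (Set (E × E × E))
  | 0 => {Z | ∃ B₁ B₂ B₃ : Set E, MeasurableSet[MeasurableSpace.generateFrom (range A)] B₁ ∧
      MeasurableSet[MeasurableSpace.generateFrom (range A)] B₂ ∧
      MeasurableSet[MeasurableSpace.generateFrom (range A)] B₃ ∧
      (Z = B₁ ×ˢ B₂ ×ˢ B₃ ∨ Z = (B₁ ×ˢ B₂ ×ˢ B₃)ᶜ)}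
  | k + 1 => {Z | ∃ f : ℕ → Set (E × E × E), (∀ n, f n ∈ Cl A k) ∧
      (Z = ⋃ n, f n ∨ Z = (⋃ n, f n)ᶜ)}

theorem up {E : Type} (A : ℕ → Set E) (k : ℕ) {ι : Type} [Countable ι] [Nonempty ι]
    (f : ι → Set (E × E × E)) (hf : ∀ i, f i ∈ Cl A k) :
    (⋃ i, f i) ∈ Cl A (k + 1) ∧ (⋃ i, f i)ᶜ ∈ Cl A (k + 1) := by
  obtain ⟨e, he⟩ := exists_surjective_nat ι
  exact ⟨⟨fun n => f (e n), fun n => hf _, Or.inl (he.iUnion_comp f).symm⟩,
    ⟨fun n => f (e n), fun n => hf _, Or.inr (by rw [he.iUnion_comp f])⟩⟩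

theorem piece {E : Type} (A : ℕ → Set E) (a b c d : E × E × E → ℝ)
    (h1 : ∀ q : ℚ, {p | a p < q ∧ q < b p} ∈ Cl A 0) (h2 : ∀ q : ℚ, {p | q < a p ∧ b p < q} ∈ Cl A 0)
    (h3 : ∀ q : ℚ, {p | c p < q ∧ q < d p} ∈ Cl A 0)
    (h4 : ∀ q : ℚ, {p | q < c p ∧ d p < q} ∈ Cl A 0) :
    {p | a p = b p ∧ c p = d p} ∈ Cl A 1 := by
  have := (up A 0 (fun i : ℚ × Fin 4 => ![{p | a p < i.1 ∧ i.1 < b p}, {p | i.1 < a p ∧ b p < i.1},
    {p | c p < i.1 ∧ i.1 < d p}, {p | i.1 < c p ∧ d p < i.1}] i.2) (by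
      rintro ⟨q, i⟩
      fin_cases i
      exacts [h1 q, h2 q, h3 q, h4 q])).2
  convert this using 1
  ext p
  simp only [mem_setOf_eq, mem_compl_iff, mem_iUnion, not_exists]
  constructor
  · rintro ⟨e1, e2⟩ ⟨q, i⟩ h
    fin_cases i
    · exact lt_irrefl _ (h.1.trans (e1 ▸ h.2))
    · exact lt_irrefl _ (h.1.trans (e1 ▸ h.2))
    · exact lt_irrefl _ (h.1.trans (e2 ▸ h.2))
    · exact lt_irrefl _ (h.1.trans (e2 ▸ h.2))
  · intro h
    constructor
    · rcases lt_trichotomy (a p) (b p) with t | t | t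
      · obtain ⟨q, hq⟩ := exists_rat_btwn t; exact (h (q, 0) hq).elim
      · exact t
      · obtain ⟨q, hq⟩ := exists_rat_btwn t; exact (h (q, 1) hq.symm).elim
    · rcases lt_trichotomy (c p) (d p) with t | t | t
      · obtain ⟨q, hq⟩ := exists_rat_btwn t; exact (h (q, 2) hq).elim
      · exact t
      · obtain ⟨q, hq⟩ := exists_rat_btwn t; exact (h (q, 3) hq.symm).elim

theorem result (hc : (𝔠 : Cardinal.{0}) ≤ ℵ_ 2) (E : Type) [Group E] (hE : #E = 𝔠) :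
    ∃ A : ℕ → Set E, {p : E × E × E | p.1 * p.2.1 = p.2.2} ∈ Cl A 2 ∧
      {p : E × E × E | p.1 * p.2.1 = p.2.2} ∈ Cl A 3 := by
  classical
  obtain ⟨F, C, z0, -, hC, hcov⟩ := H57.Ul.comb E (hE ▸ aleph0_lt_continuum) (hE ▸ hc)
  obtain ⟨r⟩ : Nonempty (E ≃ ℝ) := by rw [← Cardinal.eq, mk_real, hE]
  choose e he using fun w => (((hC w).insert w).insert 1).exists_eq_range (insert_nonempty _ _)
  have he' : ∀ w u, u ∈ C w ∨ u = 1 ∨ u = w → ∃ n, u = e w n := by
    intro w u h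
    have : u ∈ insert 1 (insert w (C w)) := by
      rcases h with h | h | h
      exacts [Or.inr (Or.inr h), Or.inl h, Or.inr (Or.inl h)]
    rw [he] at this
    obtain ⟨n, rfl⟩ := this
    exact ⟨n, rfl⟩
  let g : ℕ × Fin 5 → E → E := fun k w =>
    ![w, e w k.1, w * e w k.1, e w k.1 * w, (e w k.1)⁻¹ * w] k.2
  let φ : E → (ℕ × Fin 5 → ℝ) := fun w k => r (g k w)
  letI B : MeasurableSpace E := MeasurableSpace.comap φ inferInstance
  haveI : MeasurableSpace.CountablyGenerated E := MeasurableSpace.CountablyGenerated.comap φ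
  have hφ : Measurable φ := comap_measurable φ
  have hg : ∀ k, Measurable fun w => r (g k w) := fun k => (measurable_pi_apply k).comp hφ
  set A := MeasurableSpace.natGeneratingSequence E with hA
  have hB : MeasurableSpace.generateFrom (range A) = B :=
    MeasurableSpace.generateFrom_natGeneratingSequence E
  have lt1 : ∀ k (q : ℚ), MeasurableSet[MeasurableSpace.generateFrom (range A)]
      {w | r (g k w) < q} := fun k q => by
    rw [hB]; exact measurableSet_lt (hg k) measurable_const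
  have lt2 : ∀ k (q : ℚ), MeasurableSet[MeasurableSpace.generateFrom (range A)]
      {w | q < r (g k w)} := fun k q => by
    rw [hB]; exact measurableSet_lt measurable_const (hg k)
  have un : MeasurableSet[MeasurableSpace.generateFrom (range A)] (univ : Set E) :=
    @MeasurableSet.univ E (MeasurableSpace.generateFrom (range A))
  have b12 : ∀ s t : Set E, MeasurableSet[MeasurableSpace.generateFrom (range A)] s →
      MeasurableSet[MeasurableSpace.generateFrom (range A)] t →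
      {p : E × E × E | p.1 ∈ s ∧ p.2.1 ∈ t} ∈ Cl A 0 := fun s t hs ht =>
    ⟨s, t, univ, hs, ht, un, Or.inl (by ext p; simp)⟩
  have b13 : ∀ s t : Set E, MeasurableSet[MeasurableSpace.generateFrom (range A)] s →
      MeasurableSet[MeasurableSpace.generateFrom (range A)] t →
      {p : E × E × E | p.1 ∈ s ∧ p.2.2 ∈ t} ∈ Cl A 0 := fun s t hs ht =>
    ⟨s, univ, t, hs, un, ht, Or.inl (by ext p; simp)⟩
  have b23 : ∀ s t : Set E, MeasurableSet[MeasurableSpace.generateFrom (range A)] s →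
      MeasurableSet[MeasurableSpace.generateFrom (range A)] t →
      {p : E × E × E | p.2.1 ∈ s ∧ p.2.2 ∈ t} ∈ Cl A 0 := fun s t hs ht =>
    ⟨univ, s, t, un, hs, ht, Or.inl (by ext p; simp)⟩
  have key : {p : E × E × E | p.1 * p.2.1 = p.2.2} = ⋃ i : ℕ × Fin 3,
      ![{p : E × E × E | r (g (i.1, 1) p.1) = r (g (0, 0) p.2.1) ∧
          r (g (i.1, 2) p.1) = r (g (0, 0) p.2.2)},
        {p | r (g (0, 0) p.1) = r (g (i.1, 1) p.2.1) ∧ r (g (i.1, 3) p.2.1) = r (g (0, 0) p.2.2)},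
        {p | r (g (0, 0) p.1) = r (g (i.1, 1) p.2.2) ∧
          r (g (0, 0) p.2.1) = r (g (i.1, 4) p.2.2)}] i.2 := by
    ext ⟨x, y, z⟩
    simp only [mem_setOf_eq, mem_iUnion]
    constructor
    · rintro rfl
      have t : (y ∈ C x ∨ y = 1 ∨ y = x) ∨ (x ∈ C y ∨ x = 1 ∨ x = y) ∨
          (x ∈ C (x * y) ∨ x = 1 ∨ x = x * y) := by
        rcases hcov x y with h | h | h | h | h | h
        exacts [Or.inl (Or.inl h.2), Or.inr (Or.inl (Or.inl h.2)), Or.inr (Or.inr (Or.inl h.2)),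
          Or.inl (Or.inr (Or.inl h)), Or.inr (Or.inl (Or.inr (Or.inl h))),
          Or.inr (Or.inl (Or.inr (Or.inr h.1)))]
      rcases t with h | h | h <;> obtain ⟨n, hn⟩ := he' _ _ h
      · exact ⟨(n, 0), by simp [g, ← hn]⟩
      · exact ⟨(n, 1), by simp [g, ← hn]⟩
      · exact ⟨(n, 2), by simp [g, ← hn]⟩
    · rintro ⟨⟨n, i⟩, h⟩
      fin_cases i <;> simp [g] at h <;> obtain ⟨h1, h2⟩ := h
      · rw [← h2, h1]
      · rw [← h2, ← h1]
      · rw [h2, ← h1]; simp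
  have main : {p : E × E × E | p.1 * p.2.1 = p.2.2} ∈ Cl A 2 := by
    rw [key]
    refine (up A 1 _ ?_).1
    rintro ⟨n, i⟩
    fin_cases i
    · exact piece A _ _ _ _ (fun q => b12 _ _ (lt1 _ q) (lt2 _ q))
        (fun q => b12 _ _ (lt2 _ q) (lt1 _ q)) (fun q => b13 _ _ (lt1 _ q) (lt2 _ q))
        (fun q => b13 _ _ (lt2 _ q) (lt1 _ q))
    · exact piece A _ _ _ _ (fun q => b12 _ _ (lt1 _ q) (lt2 _ q))
        (fun q => b12 _ _ (lt2 _ q) (lt1 _ q)) (fun q => b23 _ _ (lt1 _ q) (lt2 _ q))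
        (fun q => b23 _ _ (lt2 _ q) (lt1 _ q))
    · exact piece A _ _ _ _ (fun q => b13 _ _ (lt1 _ q) (lt2 _ q))
        (fun q => b13 _ _ (lt2 _ q) (lt1 _ q)) (fun q => b23 _ _ (lt1 _ q) (lt2 _ q))
        (fun q => b23 _ _ (lt2 _ q) (lt1 _ q))
  exact ⟨A, main, fun _ => _, fun _ => main, Or.inl (iUnion_const _).symm⟩

end Pool.Agent.Results.MP_23a294_lc.Small
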